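import Pool.Agent.V1157.HI.Defs
import Pool.Agent.V1157.RC.Base

/-!
# The conjecture of Hodge type and the number of non-positive squares
-/

open CategoryTheory AlgebraicGeometry

universe u v w

namespace Pool.Agent.V1157.HI

open Pool.Agent.H914 Pool.Agent.H914.VarClass Pool.Agent.H914.VarClass.Obj Pool.Agent.W492.BB
  Pool.Agent.W550.Corr Pool.Agent.TH133 Pool.Agent.Y148.BB
open Pool.Agent.V1157.RC (cog_gr pow_eq_sum pow_mem' act_smul' push_pull_of)

set_option linter.unusedSectionVars false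

variable {k : Type u} [Field k] {𝒱 : VarClass k} {C : TheoryData.{u, v, 0} 𝒱 ℚ}
  [hC : IsChowProj C] {K : Type w} [Field K] {H : WeilTheoryData.{u, v, w} C K}
  [hH : IsWeilProj H] {S V X Y : 𝒱.Obj} {m : ℕ}

include hC

lemma hasDegree_push (f : V ⟶ S) {z : C.A V} {q : ℚ} (h : HasDegree C z q) :
    HasDegree C (C.push f z) q := by
  intro Y
  constructor
  · rw [C.base_fst, ← C.push_comp]
    have e1 : prodMap f (𝟙 Y) ≫ snd S Y = snd V Y := by simp [prodMap]
    rw [e1]
    exact (h Y).1
  · rw [C.base_snd, ← C.push_comp]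
    have e1 : prodMap (𝟙 Y) f ≫ fst Y S = fst Y V := by simp [prodMap]
    rw [e1]
    exact (h Y).2

lemma hasDegree_smul {z : C.A X} {q : ℚ} (c : ℚ) (h : HasDegree C z q) :
    HasDegree C (c • z) (c * q) := by
  intro Y
  constructor
  · rw [map_smul, map_smul, (h Y).1, smul_smul]
  · rw [map_smul, map_smul, (h Y).2, smul_smul]

include hH

lemma cl_pow_mul {a x : C.A X} (hx : Primitive H m a x) {j : ℕ} (hj : 0 < j) :
    H.cl (a ^ j * x) = 0 := by
  obtain ⟨j, rfl⟩ := Nat.exists_eq_succ_of_ne_zero hj.ne'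
  have h1 : H.cl (a * x) = 0 := hx.2
  rw [pow_succ, mul_assoc, map_mul, h1, mul_zero]

lemma act_pow_prim (hm : 0 < m) (hS : S.dim = 2 * m) {a x : C.A S} (ha : a ∈ C.gr S 1)
    (hx : Primitive H m a x) (c : ℚ) :
    C.act (c • (C.pull (fst S S) a + C.pull (snd S S) a) ^ (2 * m)) x = 0 := by
  rw [act_smul', pow_eq_sum, act_sum, Finset.sum_eq_zero, smul_zero]
  intro j hj
  rw [act_smul']
  have h0 : a ^ j * x ∈ C.gr S ((j : ℤ) + m) := C.mul_mem (pow_mem' ha j) hx.1
  by_cases hjm : j = m
  · have h1 : C.Deg S.dim (a ^ j * x) := gr_congr (by rw [hS, hjm]; push_cast; ring) h0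
    have h2 : HasDegree C (a ^ j * x) 0 :=
      hasDegree_zero_of_cl H h1 (cl_pow_mul hx (by omega))
    rw [act_ext' h2, zero_smul, smul_zero]
  · rw [act_ext_zero_of_lt h0 (by rw [hS]; omega), smul_zero]

/-- **The conjecture of Hodge type follows from a bound for the number of non-positive squares.** -/
theorem hodge_main {Amp : ∀ X : 𝒱.Obj, C.A X → Prop} (hm : 0 < m)
    (hAmp : ∀ (X : 𝒱.Obj) (a : C.A X), Amp X a → C.Deg 1 a)
    (hP : ∀ (S : 𝒱.Obj) (a : C.A S) (N : ℕ), S.dim = 2 * m → Amp S a →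
      HasPolarizedPower H Amp m N S a) :
    HodgeType H Amp m ↔ ∃ D, NonPositiveAtMost H Amp m D := by
  constructor
  · intro h
    refine ⟨0, fun X a x hX ha hx hn _ => ⟨fun _ => 1, ?_, ?_⟩⟩
    · intro h1
      exact one_ne_zero (congrFun h1 0)
    · have h1 : H.cl (x 0) = 0 := by
        by_contra hne
        obtain ⟨q, hq, hq0⟩ := h X a (x 0) hX ha (hx 0) hne
        obtain ⟨r, hr, hr0⟩ := hn 0
        have := hasDegree_unique H hq hr
        rw [this] at hq0
        exact absurd hq0 (not_lt.2 hr0)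
      simpa using h1
  · rintro ⟨D, hD⟩ S a x hS ha hx hne
    have hxx : C.Deg S.dim (C.mul x x) :=
      gr_congr (by rw [hS]; push_cast; ring) (C.mul_mem hx.1 hx.1)
    obtain ⟨q, hq⟩ := exists_hasDegree hxx
    refine ⟨q, hq, ?_⟩
    by_contra hcon
    rw [not_lt] at hcon
    obtain ⟨V, b, p, c, κ, hV, hb, hκ, hpp, hpq, hprim⟩ := hP S a (D + 1) hS ha
    replace hpp : ∀ i < D + 1, C.push (p i) 1 = κ • (1 : C.A S) := hpp
    replace hpq : ∀ i < D + 1, ∀ j < D + 1, i ≠ j → C.push (Obj.lift (p i) (p j)) 1 =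
      c • (C.pull (fst S S) a + C.pull (snd S S) a) ^ (2 * m) := hpq
    have hne' : ∀ i : Fin (D + 1), ∀ j : Fin (D + 1), i ≠ j →
        C.push (p j) (C.pull (p i) x) = 0 := by
      intro i j hij
      rw [← C.act_graph, ← C.act_cograph, ← C.act_comp, cog_gr,
        hpq i i.2 j j.2 (fun e => hij (Fin.ext e))]
      exact act_pow_prim hm hS (hAmp S a ha) hx c
    have hdeg : ∀ i j : Fin (D + 1), C.Deg V.dim (C.pull (p i) x * C.pull (p j) x) := by
      intro i j
      exact gr_congr (by rw [hV]; push_cast; ring)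
        (C.mul_mem (C.pull_mem (p i) hx.1) (C.pull_mem (p j) hx.1))
    obtain ⟨e, he, he2⟩ := hD V b (fun i => C.pull (p i) x) hV hb (fun i => hprim i i.2 x hx)
      (fun i => by
        obtain ⟨r, hr⟩ := exists_hasDegree (hdeg i i)
        refine ⟨r, hr, ?_⟩
        have h1 := hasDegree_push (p i) hr
        have h2 : C.push (p i) (C.pull (p i) x * C.pull (p i) x) = κ • (x * x) := by
          rw [← map_mul, push_pull_of (hpp i i.2)]
        rw [h2] at h1
        have h3 : r = κ * q := hasDegree_unique H h1 (hasDegree_smul κ hq)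
        rw [h3]
        have h4 : (-1 : ℚ) ^ m * (κ * q) = κ * ((-1) ^ m * q) := by ring
        rw [h4]
        exact mul_nonpos_of_nonneg_of_nonpos hκ.le hcon)
      (fun i j hij => by
        obtain ⟨r, hr⟩ := exists_hasDegree (hdeg i j)
        have h1 := hasDegree_push (p j) hr
        have h2 : C.push (p j) (C.pull (p i) x * C.pull (p j) x) = 0 := by
          rw [C.proj_right, hne' i j hij, zero_mul]
        rw [h2] at h1
        have h3 : r = 0 := hasDegree_unique H h1 hasDegree_zero
        rw [h3] at hr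
        exact hr)
    obtain ⟨i, hi⟩ : ∃ i, e i ≠ 0 := by
      by_contra hcon
      push Not at hcon
      exact he (funext hcon)
    have h1 : C.push (p i) (∑ j, e j • C.pull (p j) x) = (e i * κ) • x := by
      rw [map_sum, Finset.sum_eq_single i, map_smul, push_pull_of (hpp i i.2), smul_smul]
      · intro j _ hj
        rw [map_smul, hne' j i hj, smul_zero]
      · intro h0
        exact absurd (Finset.mem_univ i) h0
    have h2 : H.cl (C.push (p i) (∑ j, e j • C.pull (p j) x)) = 0 := by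
      rw [H.cl_push, he2, map_zero]
    rw [h1] at h2
    apply hne
    have h3 : e i * κ ≠ 0 := mul_ne_zero hi hκ.ne'
    have h4 : x = (e i * κ)⁻¹ • ((e i * κ) • x) := by
      rw [smul_smul, inv_mul_cancel₀ h3, one_smul]
    rw [h4, Algebra.smul_def, map_mul, h2, mul_zero]

end Pool.Agent.V1157.HI
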