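import Pool.Agent.TH133.Defs

/-!
# Non-positive squares of primitive classes: definitions
-/

open CategoryTheory AlgebraicGeometry

universe u v w

namespace Pool.Agent.V1157.HI

open Pool.Agent.H914 Pool.Agent.H914.VarClass Pool.Agent.H914.VarClass.Obj Pool.Agent.W492.BB
  Pool.Agent.TH133

variable {k : Type u} [Field k] {𝒱 : VarClass k} {C : TheoryData.{u, v, 0} 𝒱 ℚ} {K : Type w}
  [Field K]

/-- The cycle `x` of codimension `m` is primitive for the divisor class `a`: the cohomology class
of `a x` is zero. (For varieties of dimension `2 m`.) -/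
def Primitive (H : WeilTheoryData.{u, v, w} C K) (m : ℕ) {X : 𝒱.Obj} (a x : C.A X) : Prop :=
  C.Deg m x ∧ H.cl (C.mul a x) = 0

/-- The number `(-1) ^ m (x · x)` is positive. -/
def PositiveSquare (C : TheoryData.{u, v, 0} 𝒱 ℚ) (m : ℕ) {X : 𝒱.Obj} (x : C.A X) : Prop :=
  ∃ q : ℚ, HasDegree C (C.mul x x) q ∧ 0 < (-1) ^ m * q

/-- The number `(-1) ^ m (x · x)` is negative or zero. -/
def NonPositiveSquare (C : TheoryData.{u, v, 0} 𝒱 ℚ) (m : ℕ) {X : 𝒱.Obj} (x : C.A X) : Prop :=
  ∃ q : ℚ, HasDegree C (C.mul x x) q ∧ (-1) ^ m * q ≤ 0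

/-- The standard conjecture of Hodge type for the primitive classes of codimension `m` on the
varieties `X` of dimension `2 m`, polarized by the divisor classes `a` with `Amp X a`. -/
def HodgeType (H : WeilTheoryData.{u, v, w} C K) (Amp : ∀ X : 𝒱.Obj, C.A X → Prop) (m : ℕ) :
    Prop :=
  ∀ (X : 𝒱.Obj) (a x : C.A X), X.dim = 2 * m → Amp X a → Primitive H m a x → H.cl x ≠ 0 →
    PositiveSquare C m x

/-- On every polarized variety `(X, a)` of dimension `2 m` the form `(-1) ^ m (x · y)` on the
primitive classes of codimension `m` has at most `D` non-positive squares: of any `D + 1` pairwise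
orthogonal primitive cycles with non-positive squares a non-trivial rational linear combination is
homologically trivial. -/
def NonPositiveAtMost (H : WeilTheoryData.{u, v, w} C K) (Amp : ∀ X : 𝒱.Obj, C.A X → Prop)
    (m D : ℕ) : Prop :=
  ∀ (X : 𝒱.Obj) (a : C.A X) (x : Fin (D + 1) → C.A X), X.dim = 2 * m → Amp X a →
    (∀ i, Primitive H m a (x i)) → (∀ i, NonPositiveSquare C m (x i)) →
    (∀ i j, i ≠ j → HasDegree C (C.mul (x i) (x j)) 0) →
      ∃ c : Fin (D + 1) → ℚ, c ≠ 0 ∧ H.cl (∑ i, c i • x i) = 0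

/-- For the variety `S` of dimension `2 m` and the divisor class `a` there are a variety `V` of
dimension `2 m` with a polarization `b` and morphisms `p 0, …, p (N - 1) : V ⟶ S` of the same
degree `κ > 0` such that for `i ≠ j` the class `(p i, p j)_* [V]` is a rational multiple of
`(a × S + S × a) ^ (2 m)`, and `b · (p i)^* x` is homologically trivial for all cycles `x` of
codimension `m` on `S` such that `a x` is homologically trivial. (For `m ≥ 1`, smooth projective
varieties over an algebraically closed field and an ample class `a`: `V ⊆ S^N` is a complete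
intersection of `2 m (N - 1)` divisors in a multiple of the sum of the pull-backs of `a`, by
Bertini's theorem, and `b` is the restriction of this sum. By the weak Lefschetz theorem the
homology class of `b · (p i)^* x` is determined by its image in `S^N`, which is a multiple of
`(∑ a_l) ^ (2 m (N - 1) + 1) x_i = (∑_{l ≠ i} a_l) ^ (2 m (N - 1) + 1) x_i = 0`.) -/
def HasPolarizedPower (H : WeilTheoryData.{u, v, w} C K) (Amp : ∀ X : 𝒱.Obj, C.A X → Prop)
    (m N : ℕ) (S : 𝒱.Obj) (a : C.A S) : Prop :=
  ∃ (V : 𝒱.Obj) (b : C.A V) (p : ℕ → (V ⟶ S)) (c κ : ℚ), V.dim = 2 * m ∧ Amp V b ∧ 0 < κ ∧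
    (∀ i < N, C.down (p i) 1 = κ • (1 : C.A S)) ∧
    (∀ i < N, ∀ j < N, i ≠ j → C.down (Obj.lift (p i) (p j)) 1 =
      c • (C.up (fst S S) a + C.up (snd S S) a) ^ (2 * m)) ∧
    ∀ i < N, ∀ x : C.A S, Primitive H m a x → Primitive H m b (C.up (p i) x)

end Pool.Agent.V1157.HI
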